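import Pool.Agent.H193.OZ.Stm
import Pool.Agent.H258.CR.Jac

/-!
# Project OZ (helper193), piece R: the rings generated by a weighted left shift and the right shift

Adapted from `Pool/Agent/H258/CR/Jac.lean` and `Pool/Agent/H258/CR/Inst.lean`.
-/

set_option autoImplicit false

namespace Pool.Agent.H787.OZ

open Finsupp
open Pool.Agent.H258.CR

/-! ### Subalgebras with matrix units -/

section gen
variable {k : Type} [Field k]

/-- entries -/
noncomputable def en (r : Big k) (a b : ℕ) : k := (r.1 (single b 1)) a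

/-- A subalgebra of `Big k` with the matrix units for which the second component is determined by
the first. -/
noncomputable def mkMU (A : Subalgebra k (Big k)) (hmu : ∀ a b, (mu k a b, (0 : k)) ∈ A)
    (hz : ∀ r : A, r.1.1 = 0 → r = 0) : MU k A where
  e := fun a b => ⟨(mu k a b, 0), hmu a b⟩
  ent := fun r => en r.1
  aug := (RingHom.snd (Op k) k).comp A.val.toRingHom
  aug_alg := fun _ => rfl
  e_mul := by
    intro a b c d
    apply Subtype.ext
    show ((mu k a b * mu k c d, (0 : k) * 0) : Big k) = _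
    rw [mu_mul]
    by_cases h : b = c
    · simp [h]
    · simp [h]
  ent_zero := fun _ _ => rfl
  ent_add := fun _ _ _ _ => rfl
  ext := by
    intro r s h
    rw [← sub_eq_zero]
    apply hz
    apply op_ext
    intro b
    ext a
    have h1 := h a b
    show (r.1.1 (single b 1)) a - (s.1.1 (single b 1)) a = 0
    have h2 : (r.1.1 (single b 1)) a = (s.1.1 (single b 1)) a := h1
    rw [h2, sub_self]
  ent_finite := by
    intro r b
    obtain ⟨n, hn⟩ := (r.1.1 (single b 1)).support.bddAbove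
    refine ⟨n + 1, fun a ha => ?_⟩
    by_contra h
    have h1 : a ∈ (r.1.1 (single b 1)).support := Finsupp.mem_support_iff.2 h
    have := hn h1
    omega
  ent_e := by
    intro a b c d
    show (mu k a b (single d 1)) c = _
    rw [mu_apply, Finsupp.single_apply, Finsupp.single_apply]
    by_cases h1 : a = c <;> by_cases h2 : d = b
    · simp [h1, h2]
    · simp [h1, h2, Ne.symm h2]
    · simp [h1]
    · simp [h1]
  ent_e_mul := by
    intro a b r c d
    show (mu k a b (r.1.1 (single d 1))) c = _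
    rw [mu_apply, Finsupp.single_apply]
    rfl
  ent_mul_e := by
    intro a b r c d
    show (r.1.1 (mu k a b (single d 1))) c = _
    rw [mu_apply]
    by_cases h : b = d
    · subst h; simp; rfl
    · have : (single d (1 : k) : ℕ →₀ k) b = 0 := by
        rw [Finsupp.single_apply, if_neg (Ne.symm h)]
      rw [this]
      simp [h]
  ent_smul := fun _ _ _ _ => rfl
  ent_alg := by
    intro c a b
    show (c • (single b 1 : ℕ →₀ k)) a = _
    rw [Finsupp.smul_apply, Finsupp.single_apply]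
    by_cases h : b = a
    · simp [h]
    · simp [h, Ne.symm h]

end gen

/-! ### The weighted shift -/

section weighted
variable {k : Type} [Field k] (w : ℕ → k)

/-- weighted left shift -/
noncomputable def wL : Op k :=
  Finsupp.linearCombination k (fun n : ℕ => match n with
    | 0 => (0 : ℕ →₀ k)
    | n + 1 => w n • single n 1)

lemma wL_zero : wL w (single 0 1) = 0 := by simp [wL]
lemma wL_succ (n : ℕ) : wL w (single (n + 1) 1) = w n • single n 1 := by simp [wL]

lemma wL_pow_lt (b n : ℕ) (h : n < b) : ((wL w) ^ b) (single n 1) = 0 := by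
  induction b generalizing n with
  | zero => omega
  | succ b ih =>
    rw [pow_succ]
    show ((wL w) ^ b) (wL w (single n 1)) = _
    cases n with
    | zero => rw [wL_zero, map_zero]
    | succ n => rw [wL_succ, map_smul, ih n (by omega), smul_zero]

lemma wL_pow_add (b m : ℕ) : ((wL w) ^ b) (single (m + b) 1) =
    (∏ i ∈ Finset.range b, w (m + i)) • single m 1 := by
  induction b with
  | zero => simp
  | succ b ih =>
    rw [pow_succ]
    show ((wL w) ^ b) (wL w (single (m + b + 1) 1)) = _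
    rw [wL_succ, map_smul, ih, Finset.prod_range_succ, smul_smul, mul_comm]

/-- the generators -/
noncomputable def bX : Big k := (wL w, 1)

/-- the ring -/
noncomputable def Rs : Subalgebra k (Big k) := Algebra.adjoin k {bX w, bR k}

lemma bX_mem : bX w ∈ Rs w := Algebra.subset_adjoin (by simp)
lemma bY_mem : bR k ∈ Rs w := Algebra.subset_adjoin (by simp)

noncomputable def jX : Rs w := ⟨bX w, bX_mem w⟩
noncomputable def jY : Rs w := ⟨bR k, bY_mem w⟩

lemma Rs_gen : Algebra.adjoin k {jX w, jY w} = (⊤ : Subalgebra k (Rs w)) := by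
  have h := Algebra.adjoin_adjoin_coe_preimage (R := k) (s := {bX w, bR k})
  have h2 : (((↑) : Algebra.adjoin k {bX w, bR k} → Big k) ⁻¹' {bX w, bR k}) =
      ({jX w, jY w} : Set (Rs w)) := by
    ext x
    simp only [Set.mem_preimage, Set.mem_insert_iff, Set.mem_singleton_iff]
    constructor
    · rintro (h | h)
      · exact Or.inl (Subtype.ext h)
      · exact Or.inr (Subtype.ext h)
    · rintro (h | h)
      · exact Or.inl (congrArg Subtype.val h)
      · exact Or.inr (congrArg Subtype.val h)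
  rw [← h2]
  exact h

lemma Rs_countable [Finite k] : Countable (Rs w) := by
  rw [← Cardinal.mk_le_aleph0_iff]
  refine (Algebra.cardinalMk_adjoin_le k ({bX w, bR k} : Set (Big k))).trans ?_
  refine sup_le (sup_le ?_ ?_) le_rfl
  · exact Cardinal.mk_le_aleph0_iff.2 inferInstance
  · exact Cardinal.mk_le_aleph0_iff.2 (Set.toFinite _).countable.to_subtype

lemma YX_pow (s n : ℕ) : ((shR k * wL w) ^ s) (single (n + 1) 1) = w n ^ s • single (n + 1) 1 := by
  induction s with
  | zero => simp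
  | succ s ih =>
    rw [pow_succ]
    show ((shR k * wL w) ^ s) (shR k (wL w (single (n + 1) 1))) = _
    rw [wL_succ, map_smul, shR_single, map_smul, ih, smul_smul, pow_succ, mul_comm]

variable {w}

lemma z_eq (hw : ∀ n, w n ^ 7 = 1) : (1 - (bR k * bX w) ^ 7 : Big k) = (mu k 0 0, 0) := by
  apply Prod.ext
  · apply op_ext
    intro n
    show (1 - (shR k * wL w) ^ 7 : Op k) (single n 1) = _
    show single n 1 - ((shR k * wL w) ^ 7) (single n 1) = _
    rw [mu_single]
    cases n with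
    | zero =>
      rw [if_pos rfl, pow_succ]
      show single 0 1 - ((shR k * wL w) ^ 6) (shR k (wL w (single 0 1))) = _
      rw [wL_zero, map_zero, map_zero, sub_zero]
    | succ n =>
      rw [if_neg (by omega), YX_pow, hw, one_smul, sub_self]
  · show (1 - ((1 : k) * 1) ^ 7 : k) = 0
    simp

lemma z_mem (hw : ∀ n, w n ^ 7 = 1) : ((mu k 0 0, 0) : Big k) ∈ Rs w := by
  rw [← z_eq hw]
  exact sub_mem (one_mem _) (pow_mem (mul_mem (bY_mem w) (bX_mem w)) _)

lemma mu_mem (hw : ∀ n, w n ^ 7 = 1) (a b : ℕ) : (mu k a b, (0 : k)) ∈ Rs w := by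
  have hw0 : ∀ n, w n ≠ 0 := by
    intro n h
    have := hw n
    rw [h] at this
    simp at this
  have hP : (∏ i ∈ Finset.range b, w i) ≠ 0 := Finset.prod_ne_zero_iff.2 fun i _ => hw0 i
  have e : (mu k a b, (0 : k)) = (∏ i ∈ Finset.range b, w i)⁻¹ •
      (bR k ^ a * ((mu k 0 0, 0) : Big k) * bX w ^ b) := by
    apply Prod.ext
    · apply op_ext
      intro n
      show _ = (∏ i ∈ Finset.range b, w i)⁻¹ •
        (((shR k) ^ a) (mu k 0 0 (((wL w) ^ b) (single n 1))))
      rw [mu_single]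
      by_cases h : n < b
      · rw [if_neg (by omega), wL_pow_lt w b n h, map_zero, map_zero, smul_zero]
      · obtain ⟨m, rfl⟩ : ∃ m, n = m + b := ⟨n - b, by omega⟩
        rw [wL_pow_add, map_smul, mu_single]
        by_cases h2 : m = 0
        · subst h2
          rw [if_pos (by omega), if_pos rfl, map_smul, shR_pow, smul_smul]
          simp only [zero_add]
          rw [inv_mul_cancel₀ hP, one_smul]
        · rw [if_neg (by omega), if_neg h2, smul_zero, map_zero, smul_zero]
    · show (0 : k) = (∏ i ∈ Finset.range b, w i)⁻¹ • ((1 : k) ^ a * 0 * (1 : k) ^ b)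
      simp
  rw [e]
  exact Subalgebra.smul_mem _ (mul_mem (mul_mem (pow_mem (bY_mem w) _) (z_mem hw))
    (pow_mem (bX_mem w) _)) _

/-- admissible indices -/
def Ad (N m : ℕ) : Prop := N ≤ m ∧ ∀ j : ℕ, 4 ^ j + N < m ∨ m + N < 4 ^ j

/-- eventual behaviour -/
def EvN (r : Big k) (N : ℕ) : Prop := ∀ m, Ad N m → sm (r.1 (single m 1)) = r.2 ∧
  r.1 (single m 1) ∈ Finsupp.supported k k {i | m ≤ i + N ∧ i ≤ m + N}

lemma ev_ext {r : Big k} {N : ℕ} (h : EvN r N) (S : Set ℕ) (hS : ∀ i ∈ S, Ad N i) (T : Set ℕ)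
    (hT : ∀ i ∈ S, ∀ l, i ≤ l + N → l ≤ i + N → l ∈ T) (v : ℕ →₀ k)
    (hv : v ∈ Finsupp.supported k k S) :
    sm (r.1 v) = r.2 * sm v ∧ r.1 v ∈ Finsupp.supported k k T := by
  rw [Finsupp.supported_eq_span_single] at hv
  induction hv using Submodule.span_induction with
  | mem x hx =>
    obtain ⟨m, hm, rfl⟩ := hx
    obtain ⟨h1, h2⟩ := h m (hS m hm)
    refine ⟨by rw [h1, sm_single, mul_one], Finsupp.supported_mono ?_ h2⟩
    intro l hl
    exact hT m hm l hl.1 hl.2
  | zero => simp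
  | add x y _ _ hx hy =>
    refine ⟨?_, ?_⟩
    · rw [map_add, map_add, map_add, hx.1, hy.1]; ring
    · rw [map_add]; exact add_mem hx.2 hy.2
  | smul c x _ hx =>
    refine ⟨?_, ?_⟩
    · rw [map_smul, map_smul, map_smul, hx.1, smul_eq_mul, smul_eq_mul]; ring
    · rw [map_smul]; exact Submodule.smul_mem _ _ hx.2

lemma ev_mono {r : Big k} {N M : ℕ} (h : EvN r N) (hNM : N ≤ M) : EvN r M := by
  intro m hm
  obtain ⟨h1, h2⟩ := h m ⟨by have := hm.1; omega, fun j => by
    rcases hm.2 j with h | h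
    · left; omega
    · right; omega⟩
  refine ⟨h1, Finsupp.supported_mono ?_ h2⟩
  rintro i ⟨hi1, hi2⟩
  exact ⟨by omega, by omega⟩

lemma ev_Rs (hw1 : ∀ n, (∀ j, n ≠ 4 ^ j) → w n = 1) (r : Rs w) : ∃ N, EvN r.1 N := by
  obtain ⟨r, hr⟩ := r
  show ∃ N, EvN r N
  have hr' : r ∈ Algebra.adjoin k {bX w, bR k} := hr
  clear hr
  induction hr' using Algebra.adjoin_induction with
  | mem x hx =>
    rcases hx with rfl | hx
    · refine ⟨1, ?_⟩
      intro m hm
      obtain ⟨m, rfl⟩ : ∃ m', m = m' + 1 := ⟨m - 1, by have := hm.1; omega⟩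
      have h1 : w m = 1 := by
        refine hw1 m fun j hj => ?_
        rcases hm.2 j with h | h
        · omega
        · omega
      show sm (wL w (single (m + 1) 1)) = 1 ∧ wL w (single (m + 1) 1) ∈ _
      rw [wL_succ, h1, one_smul]
      refine ⟨sm_single _, Finsupp.single_mem_supported k 1 ?_⟩
      exact ⟨le_rfl, by omega⟩
    · rw [Set.mem_singleton_iff] at hx
      subst hx
      refine ⟨1, ?_⟩
      intro m _
      show sm (shR k (single m 1)) = 1 ∧ shR k (single m 1) ∈ _
      rw [shR_single]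
      refine ⟨sm_single _, Finsupp.single_mem_supported k 1 ?_⟩
      exact ⟨by omega, le_rfl⟩
  | algebraMap c =>
    refine ⟨0, fun m _ => ?_⟩
    have h1 : (algebraMap k (Big k) c).1 (single m 1) = c • (single m 1 : ℕ →₀ k) := rfl
    have h2 : (algebraMap k (Big k) c).2 = c := rfl
    rw [h1, h2]
    refine ⟨by rw [map_smul, smul_eq_mul, sm_single, mul_one], Submodule.smul_mem _ _
      (Finsupp.single_mem_supported k 1 ⟨by omega, by omega⟩)⟩
  | add x y _ _ hx hy =>
    obtain ⟨N, hN⟩ := hx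
    obtain ⟨M, hM⟩ := hy
    refine ⟨max N M, fun m hm => ?_⟩
    obtain ⟨h1, h2⟩ := ev_mono hN (le_max_left N M) m hm
    obtain ⟨h3, h4⟩ := ev_mono hM (le_max_right N M) m hm
    have e1 : (x + y).1 (single m 1) = x.1 (single m 1) + y.1 (single m 1) := rfl
    have e2 : (x + y).2 = x.2 + y.2 := rfl
    rw [e1, e2]
    exact ⟨by rw [map_add, h1, h3], add_mem h2 h4⟩
  | mul x y _ _ hx hy =>
    obtain ⟨N, hN⟩ := hx
    obtain ⟨M, hM⟩ := hy
    refine ⟨N + M, fun m hm => ?_⟩
    obtain ⟨h3, h4⟩ := ev_mono hM (le_refl M) m ⟨by have := hm.1; omega, fun j => by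
      rcases hm.2 j with h | h
      · left; omega
      · right; omega⟩
    have h5 := ev_ext hN {i | m ≤ i + M ∧ i ≤ m + M} (by
      rintro i ⟨hi1, hi2⟩
      have := hm.1
      refine ⟨by omega, fun j => ?_⟩
      rcases hm.2 j with h | h
      · left; omega
      · right; omega) {i | m ≤ i + (N + M) ∧ i ≤ m + (N + M)} (by
      rintro i ⟨hi1, hi2⟩ l hl1 hl2
      exact ⟨by omega, by omega⟩) (y.1 (single m 1)) h4
    have e1 : (x * y).1 (single m 1) = x.1 (y.1 (single m 1)) := rfl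
    have e2 : (x * y).2 = x.2 * y.2 := rfl
    rw [e1, e2]
    exact ⟨by rw [h5.1, h3], h5.2⟩

lemma ad_ex (N : ℕ) : Ad N (2 * 4 ^ N) := by
  have h1 : N < 4 ^ N := Nat.lt_pow_self (by norm_num)
  refine ⟨by omega, fun j => ?_⟩
  rcases Nat.lt_or_ge N j with h | h
  · right
    have h2 : 4 ^ (N + 1) ≤ 4 ^ j := Nat.pow_le_pow_right (by norm_num) h
    rw [pow_succ] at h2
    omega
  · left
    have h2 : 4 ^ j ≤ 4 ^ N := Nat.pow_le_pow_right (by norm_num) h
    omega

lemma Rs_zero (hw1 : ∀ n, (∀ j, n ≠ 4 ^ j) → w n = 1) (r : Rs w) (h : r.1.1 = 0) : r = 0 := by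
  obtain ⟨N, hN⟩ := ev_Rs hw1 r
  have h1 := (hN _ (ad_ex N)).1
  rw [h, LinearMap.zero_apply, map_zero] at h1
  apply Subtype.ext
  exact Prod.ext h h1.symm

end weighted

/-! ### The weights -/

section main
variable {k : Type} [Field k]

open Classical in
/-- the weights -/
noncomputable def wt (c : k) (θ : ℕ → Bool) (n : ℕ) : k := if ∃ j, n = 4 ^ j ∧ θ j = true then c else 1

lemma wt_pow (c : k) (θ : ℕ → Bool) (j : ℕ) : wt c θ (4 ^ j) = if θ j = true then c else 1 := by
  unfold wt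
  by_cases h : θ j = true
  · rw [if_pos h, if_pos ⟨j, rfl, h⟩]
  · rw [if_neg h, if_neg]
    rintro ⟨i, hi, hi2⟩
    have := Nat.pow_right_injective (le_refl 4 |>.trans' (by norm_num)) hi
    subst this
    exact h hi2

lemma wt_one (c : k) (θ : ℕ → Bool) (n : ℕ) (h : ∀ j, n ≠ 4 ^ j) : wt c θ n = 1 := by
  unfold wt
  rw [if_neg]
  rintro ⟨j, hj, -⟩
  exact h j hj

lemma wt_seven (c : k) (hc : c ≠ 0) (h7 : ∀ u : k, u ≠ 0 → u ^ 7 = 1) (θ : ℕ → Bool) (n : ℕ) :
    wt c θ n ^ 7 = 1 := by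
  apply h7
  unfold wt
  split_ifs
  · exact hc
  · exact one_ne_zero

theorem lift_p (w : ℕ → k) (hw : ∀ n, w n ^ 7 = 1) (U : MU k (Rs w))
    (hU : ∀ a b, (U.e a b).1 = (mu k a b, 0)) (hent : ∀ r a b, U.ent r a b = en r.1 a b) (n : ℕ)
    (α : k) :
    FreeAlgebra.lift k ![jX w, jY w]
      ((1 - (FreeAlgebra.ι k 1 * FreeAlgebra.ι k 0) ^ 7) * (FreeAlgebra.ι k (0 : Fin 2) ^ n *
        (FreeAlgebra.ι k 0 * FreeAlgebra.ι k 1 - algebraMap k _ α) * FreeAlgebra.ι k 1 ^ n) *
        (1 - (FreeAlgebra.ι k 1 * FreeAlgebra.ι k 0) ^ 7)) =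
      ((∏ i ∈ Finset.range n, w i) * (w n - α)) • U.e 0 0 := by
  simp only [map_mul, map_sub, map_one, map_pow, FreeAlgebra.lift_ι_apply, Matrix.cons_val_zero,
    Matrix.cons_val_one, AlgHom.commutes]
  have hz : (1 - (jY w * jX w) ^ 7 : Rs w) = U.e 0 0 := by
    apply Subtype.ext
    rw [hU]
    exact z_eq hw
  rw [hz, U.e_mul_mul_e, hent]
  congr 1
  show (((wL w) ^ n) ((wL w * shR k - algebraMap k (Op k) α : Op k)
    (((shR k) ^ n) (single 0 1)))) 0 = _
  rw [shR_pow, zero_add]
  have e1 : (wL w * shR k - algebraMap k (Op k) α : Op k) (single n 1) =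
      (w n - α) • single n 1 := by
    show wL w (shR k (single n 1)) - α • (single n 1 : ℕ →₀ k) = _
    rw [shR_single, wL_succ, sub_smul]
  rw [e1, map_smul]
  have e2 := wL_pow_add w n 0
  simp only [zero_add] at e2
  rw [e2]
  simp [mul_comm]

end main

theorem s_R : Pool.Agent.H193.OZ.S_R := by
  intro k _ _ c hc0 hc1 h7
  refine ⟨fun θ => Rs (wt c θ), fun θ => inferInstance, fun θ => inferInstance,
    fun θ => mkMU (Rs (wt c θ)) (mu_mem (wt_seven c hc0 h7 θ)) (Rs_zero (wt_one c θ)),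
    fun θ => jX (wt c θ), fun θ => jY (wt c θ), fun θ => Rs_gen _, fun θ => Rs_countable _, ?_⟩
  intro θ θ' hne
  obtain ⟨j, hj⟩ := Function.ne_iff.1 hne
  refine ⟨(1 - (FreeAlgebra.ι k 1 * FreeAlgebra.ι k 0) ^ 7) * (FreeAlgebra.ι k (0 : Fin 2) ^ (4 ^ j) *
        (FreeAlgebra.ι k 0 * FreeAlgebra.ι k 1 - algebraMap k _ (wt c θ (4 ^ j))) *
        FreeAlgebra.ι k 1 ^ (4 ^ j)) *
        (1 - (FreeAlgebra.ι k 1 * FreeAlgebra.ι k 0) ^ 7), ?_, ?_⟩
  · have h := lift_p (wt c θ) (wt_seven c hc0 h7 θ)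
      (mkMU (Rs (wt c θ)) (mu_mem (wt_seven c hc0 h7 θ)) (Rs_zero (wt_one c θ)))
      (fun _ _ => rfl) (fun _ _ _ => rfl) (4 ^ j) (wt c θ (4 ^ j))
    rw [sub_self, mul_zero, zero_smul] at h
    exact h
  · have h := lift_p (wt c θ') (wt_seven c hc0 h7 θ')
      (mkMU (Rs (wt c θ')) (mu_mem (wt_seven c hc0 h7 θ')) (Rs_zero (wt_one c θ')))
      (fun _ _ => rfl) (fun _ _ _ => rfl) (4 ^ j) (wt c θ (4 ^ j))
    refine ⟨_, ?_, h⟩
    have hw0 : ∀ n, wt c θ' n ≠ 0 := by
      intro n h0
      have := wt_seven c hc0 h7 θ' n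
      rw [h0] at this
      simp at this
    refine mul_ne_zero (Finset.prod_ne_zero_iff.2 fun i _ => hw0 i) (sub_ne_zero.2 ?_)
    rw [wt_pow, wt_pow]
    cases h1 : θ j <;> cases h2 : θ' j
    · rw [h1, h2] at hj; exact absurd rfl hj
    · simpa using hc1
    · simpa using hc1.symm
    · rw [h1, h2] at hj; exact absurd rfl hj

end Pool.Agent.H787.OZ
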